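import Mathlib

set_option autoImplicit false

/-! # The window for the break point -/

namespace Pool.Agent.Helper64.PX3

open Finset

/-- upper bound for `c ^ k + (1 - c) ^ k` in the window -/
noncomputable def sb (k : ℕ) : ℝ := if k = 4 then 0.159 else 2.6 / 2 ^ k

lemma geom_half (m : ℕ) : ∑ j ∈ range m, 2 * ((1 : ℝ) / 2) ^ j = 4 - 4 * (1 / 2) ^ m := by
  induction m with
  | zero => simp
  | succ m ih => rw [sum_range_succ, ih]; ring

/-- `1 - c^k - d^k` as `c d` times a sum. -/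
lemma one_sub (m : ℕ) (c d : ℝ) (h : c + d = 1) :
    1 - c ^ (m + 1) - d ^ (m + 1) = c * d * ∑ j ∈ range m, (c ^ j + d ^ j) := by
  induction m with
  | zero => simp; linarith
  | succ m ih =>
    rw [sum_range_succ, mul_add, ← ih]
    have e1 : c ^ (m + 1 + 1) = c ^ (m + 1) * (1 - d) := by rw [pow_succ, ← h]; ring
    have e2 : d ^ (m + 1 + 1) = d ^ (m + 1) * (1 - c) := by rw [pow_succ, ← h]; ring
    rw [e1, e2]
    ring

lemma pow_add_ge (j : ℕ) (c d : ℝ) (hc : 0 ≤ c) (hd : 0 ≤ d) (h : c + d = 1) :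
    2 * ((1 : ℝ) / 2) ^ j ≤ c ^ j + d ^ j := by
  rcases j with _ | j
  · norm_num
  have h1 := add_pow_le hc hd (j + 1)
  rw [h, one_pow, Nat.add_sub_cancel] at h1
  have e : (2 : ℝ) * (1 / 2) ^ (j + 1) = 1 / 2 ^ j := by
    rw [pow_succ, div_pow, one_pow]; ring
  rw [e, div_le_iff₀ (by positivity)]
  linarith

/-- The closed form of the window. -/
lemma window_closed (m : ℕ) (c d : ℝ) (hc : 0 < c) (hd : 0 < d) (h : c + d = 1)
    (hw : (1 - c ^ (m + 2)) * (1 - d ^ (m + 2)) ≤ 4 ^ (m + 2) * (c ^ (m + 2) * d ^ (m + 2))) :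
    1 - 2 * (1 / 2) ^ (m + 2) ≤ (4 * (c * d)) ^ (m + 1) := by
  set P := c * d with hP
  have hP0 : 0 < P := mul_pos hc hd
  have e1 : c ^ (m + 2) * d ^ (m + 2) = P ^ (m + 2) := by rw [hP, mul_pow]
  have h1 : 1 - c ^ (m + 2) - d ^ (m + 2) ≤ (4 ^ (m + 2) - 1) * P ^ (m + 2) := by
    have : (1 - c ^ (m + 2)) * (1 - d ^ (m + 2))
        = 1 - c ^ (m + 2) - d ^ (m + 2) + P ^ (m + 2) := by rw [← e1]; ring
    rw [this, e1] at hw
    linarith
  have h2 : P * (4 - 4 * (1 / 2) ^ (m + 1)) ≤ 1 - c ^ (m + 2) - d ^ (m + 2) := by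
    rw [show m + 2 = (m + 1) + 1 by rfl, one_sub (m + 1) c d h, ← geom_half (m + 1)]
    exact mul_le_mul_of_nonneg_left
      (sum_le_sum fun j _ => pow_add_ge j c d hc.le hd.le h) hP0.le
  have h3 : 4 - 4 * (1 / 2) ^ (m + 1) ≤ (4 ^ (m + 2) - 1) * P ^ (m + 1) := by
    have : P * (4 - 4 * (1 / 2) ^ (m + 1)) ≤ P * ((4 ^ (m + 2) - 1) * P ^ (m + 1)) := by
      calc _ ≤ _ := h2.trans h1
        _ = _ := by ring
    exact le_of_mul_le_mul_left this hP0
  have h4 : 0 ≤ P ^ (m + 1) := by positivity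
  have e2 : (4 * P) ^ (m + 1) = 4 ^ (m + 1) * P ^ (m + 1) := mul_pow _ _ _
  have e3 : (4 : ℝ) ^ (m + 2) = 4 * 4 ^ (m + 1) := by ring
  have e4 : ((1 : ℝ) / 2) ^ (m + 2) = (1 / 2) ^ (m + 1) / 2 := by ring
  rw [e2, e4]
  rw [e3] at h3
  nlinarith

lemma exp_quarter : Real.exp (1 / 4) ≤ 1.3 := by
  have h1 : Real.exp (1 / 4) ^ 4 = Real.exp 1 := by
    rw [← Real.exp_nat_mul]; norm_num
  have h2 : Real.exp (1 / 4) ^ 4 ≤ 1.3 ^ 4 := by
    rw [h1]
    have := Real.exp_one_lt_d9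
    norm_num
    linarith
  exact (pow_le_pow_iff_left₀ (Real.exp_pos _).le (by norm_num) (by norm_num)).1 h2

lemma grow (k : ℕ) (hk : 5 ≤ k) : (2 : ℝ) * k ^ 2 ≤ (k - 1) * (2 ^ (k - 1) - 1) := by
  induction k, hk using Nat.le_induction with
  | base => norm_num
  | succ k hk ih =>
    have hk' : (5 : ℝ) ≤ k := by exact_mod_cast hk
    have e : (2 : ℝ) ^ (k + 1 - 1) = 2 * 2 ^ (k - 1) := by
      rw [← pow_succ']; congr 1; omega
    rw [e]
    push_cast
    set T : ℝ := 2 ^ (k - 1) with hT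
    have hT0 : (16 : ℝ) ≤ T := by
      calc (16 : ℝ) = 2 ^ 4 := by norm_num
        _ ≤ T := pow_le_pow_right₀ (by norm_num) (by omega)
    nlinarith

/-- **The window.** -/
theorem window (k : ℕ) (hk : 4 ≤ k) (c : ℝ) (hc0 : 0 < c) (hc1 : c < 1)
    (h : (1 - c ^ k) * (1 - (1 - c) ^ k) ≤ 4 ^ k * (c ^ k * (1 - c) ^ k)) :
    c ^ k + (1 - c) ^ k ≤ sb k := by
  obtain ⟨m, rfl⟩ : ∃ m, k = m + 2 := ⟨k - 2, by omega⟩
  have hd0 : 0 < 1 - c := by linarith
  have hcl := window_closed m c (1 - c) hc0 hd0 (by ring) h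
  set P := c * (1 - c) with hP
  have hP4 : 4 * P ≤ 1 := by nlinarith [sq_nonneg (2 * c - 1)]
  have hP0 : 0 < P := mul_pos hc0 hd0
  rcases Nat.eq_or_lt_of_le hk with h4 | h5
  · have hm : m = 2 := by omega
    subst hm
    have hcl' : (7 : ℝ) / 8 ≤ (4 * P) ^ 3 := by
      norm_num at hcl ⊢
      linarith
    have e : c ^ (2 + 2) + (1 - c) ^ (2 + 2) = 1 - 4 * P + 2 * P ^ 2 := by rw [hP]; ring
    have hu : (0.956 : ℝ) ≤ 4 * P := by
      by_contra hlt
      push Not at hlt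
      have : (4 * P) ^ 3 < 0.956 ^ 3 := pow_lt_pow_left₀ hlt (by linarith) (by norm_num)
      norm_num at this hcl'
      linarith
    rw [e, sb, if_pos rfl]
    nlinarith
  · have h6 : m + 2 ≠ 4 := by omega
    rw [sb, if_neg h6]
    set D := 1 - 4 * P with hD
    have hD0 : 0 ≤ D := by linarith
    set δ := 2 * c - 1 with hδ
    have hDδ : δ ^ 2 = D := by rw [hδ, hD, hP]; ring
    have e1 : c = (1 + δ) / 2 := by rw [hδ]; ring
    have e2 : 1 - c = (1 - δ) / 2 := by rw [hδ]; ring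
    -- bound for `D`
    have hk1 : (0 : ℝ) < (m : ℝ) + 1 := by positivity
    have hexp : 1 - 2 * (1 / 2) ^ (m + 2) ≤ Real.exp (-((m + 1) * D)) := by
      refine hcl.trans ?_
      have e3 : 4 * P = 1 - D := by rw [hD]; ring
      have h7 : 1 - D ≤ Real.exp (-D) := by
        have := Real.add_one_le_exp (-D); linarith
      rw [e3]
      calc (1 - D) ^ (m + 1) ≤ Real.exp (-D) ^ (m + 1) :=
            pow_le_pow_left₀ (by linarith) h7 _
        _ = Real.exp (-((m + 1) * D)) := by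
            rw [← Real.exp_nat_mul]; congr 1; push_cast; ring
    set T : ℝ := 2 ^ (m + 1) with hT
    have hT1 : (16 : ℝ) ≤ T := by
      calc (16 : ℝ) = 2 ^ 4 := by norm_num
        _ ≤ T := pow_le_pow_right₀ (by norm_num) (by omega)
    have e4 : 1 - 2 * ((1 : ℝ) / 2) ^ (m + 2) = (T - 1) / T := by
      have : ((1 : ℝ) / 2) ^ (m + 2) = 1 / (2 * T) := by
        rw [hT, div_pow, one_pow, pow_succ' 2 (m + 1)]
      rw [this]; field_simp
    rw [e4] at hexp
    have hw : ((m : ℝ) + 1) * D ≤ 1 / (T - 1) := by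
      have h7 : (m + 1) * D + 1 ≤ Real.exp ((m + 1) * D) := Real.add_one_le_exp _
      have h8 : Real.exp ((m + 1) * D) ≤ T / (T - 1) := by
        have h9 : Real.exp (-((m + 1) * D)) * Real.exp ((m + 1) * D) = 1 := by
          rw [← Real.exp_add]; simp
        have h10 : 0 < Real.exp ((m + 1) * D) := Real.exp_pos _
        rw [le_div_iff₀ (by linarith)]
        have h11 := mul_le_mul_of_nonneg_right hexp h10.le
        rw [h9, div_mul_eq_mul_div, div_le_iff₀ (by linarith)] at h11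
        linarith
      have h12 : T / (T - 1) = 1 + 1 / (T - 1) := by
        have : T - 1 ≠ 0 := by linarith
        field_simp
        ring
      linarith
    -- the exponent
    have hgr := grow (m + 2) (by omega)
    have e5 : m + 2 - 1 = m + 1 := by omega
    rw [e5, ← hT] at hgr
    push_cast at hgr
    have hE : ((m : ℝ) + 2) ^ 2 * D / 2 ≤ 1 / 4 := by
      have h7 : ((m : ℝ) + 1) * D * (T - 1) ≤ 1 := by
        rwa [le_div_iff₀ (by linarith)] at hw
      have h8 : 2 * ((m : ℝ) + 2) ^ 2 * D ≤ ((m + 2 - 1) * (T - 1)) * D :=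
        mul_le_mul_of_nonneg_right hgr hD0
      nlinarith
    have hs : c ^ (m + 2) + (1 - c) ^ (m + 2) ≤ 2 * Real.exp (1 / 4) / 2 ^ (m + 2) := by
      rw [e2, e1, div_pow, div_pow, ← add_div]
      refine div_le_div_of_nonneg_right ?_ (by positivity)
      have h7 : 1 + δ ≤ Real.exp δ := by have := Real.add_one_le_exp δ; linarith
      have h8 : 1 - δ ≤ Real.exp (-δ) := by have := Real.add_one_le_exp (-δ); linarith
      have h9 : (1 + δ) ^ (m + 2) ≤ Real.exp ((m + 2 : ℕ) * δ) := by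
        rw [Real.exp_nat_mul]
        exact pow_le_pow_left₀ (by rw [hδ]; linarith) h7 _
      have h10 : (1 - δ) ^ (m + 2) ≤ Real.exp (-((m + 2 : ℕ) * δ)) := by
        rw [← mul_neg, Real.exp_nat_mul]
        exact pow_le_pow_left₀ (by rw [hδ]; linarith) h8 _
      have h11 := Real.cosh_le_exp_half_sq ((m + 2 : ℕ) * δ)
      rw [Real.cosh_eq] at h11
      have h12 : (((m + 2 : ℕ) : ℝ) * δ) ^ 2 / 2 ≤ 1 / 4 := by
        rw [mul_pow, hDδ]; push_cast; exact hE
      have h13 := Real.exp_le_exp.2 h12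
      linarith
    refine hs.trans ?_
    refine div_le_div_of_nonneg_right ?_ (by positivity)
    have := exp_quarter
    norm_num at this ⊢
    linarith

end Pool.Agent.Helper64.PX3
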