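import Mathlib
import Pool.Agent.Helper41.PX.Cube

set_option autoImplicit false

/-! # The local (operator) inequality for blocked pairs of functions -/

namespace Pool.Agent.Helper64.PX3

open Finset Pool.Agent.Helper41.PX
open scoped BigOperators

variable {ι : Type*} [Fintype ι] [DecidableEq ι]

/-- union of a list of blocks -/
def U : List (Finset ι) → Finset ι
  | [] => ∅
  | D :: L => D ∪ U L

omit [Fintype ι] in
lemma mem_U {L : List (Finset ι)} {e : ι} : e ∈ U L ↔ ∃ D ∈ L, e ∈ D := by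
  induction L with
  | nil => simp [U]
  | cons D L ih => simp [U, ih]

/-- product of the reflections `2 avg - 1` over a list of blocks -/
noncomputable def T : List (Finset ι) → ((ι → Bool) → ℝ) → (ι → Bool) → ℝ
  | [], g => g
  | D :: L, g => fun x => 2 * avg D (T L g) x - T L g x

lemma avg_empty (g : (ι → Bool) → ℝ) : avg (∅ : Finset ι) g = g := by
  funext x
  unfold avg
  have : ∀ y : ι → Bool, ow ∅ y x = x := fun y => by funext e; simp [ow]
  simp only [this, Fintype.expect_const]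

lemma exp_mul_avg_self (D : Finset ι) (g : (ι → Bool) → ℝ) :
    𝔼 x, g x * avg D g x = 𝔼 x, avg D g x ^ 2 := by
  have := avg_adj D g (avg D g)
  rw [avg_idem] at this
  rw [this]
  exact Finset.expect_congr rfl fun x _ => by ring

lemma refl_norm (D : Finset ι) (g : (ι → Bool) → ℝ) :
    𝔼 x, (2 * avg D g x - g x) ^ 2 = 𝔼 x, g x ^ 2 := by
  have e : ∀ x, (2 * avg D g x - g x) ^ 2
      = 4 * (avg D g x ^ 2) - 4 * (g x * avg D g x) + g x ^ 2 := fun x => by ring
  rw [Finset.expect_congr rfl fun x _ => e x, Finset.expect_add_distrib,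
    Finset.expect_sub_distrib, ← Finset.mul_expect, ← Finset.mul_expect, exp_mul_avg_self]
  ring

lemma T_norm (L : List (Finset ι)) (g : (ι → Bool) → ℝ) :
    𝔼 x, T L g x ^ 2 = 𝔼 x, g x ^ 2 := by
  induction L with
  | nil => rfl
  | cons D L ih => exact (refl_norm D (T L g)).trans ih

lemma T_avg (L : List (Finset ι)) (E : Finset ι) (g : (ι → Bool) → ℝ) :
    T L (avg E g) = avg E (T L g) := by
  induction L with
  | nil => rfl
  | cons D L ih =>
    show (fun x => 2 * avg D (T L (avg E g)) x - T L (avg E g) x)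
      = avg E (fun x => 2 * avg D (T L g) x - T L g x)
    rw [ih, avg_sub, avg_mul_left, avg_comm]

/-- locality -/
lemma T_zero (L : List (Finset ι)) (g : (ι → Bool) → ℝ) : ∀ x : ι → Bool,
    (∀ x', (∀ e, e ∉ U L → x' e = x e) → g x' = 0) → T L g x = 0 := by
  induction L with
  | nil =>
    intro x h
    exact h x fun _ _ => rfl
  | cons D L ih =>
    intro x h
    have h1 : T L g x = 0 := ih x fun x' hx' => h x' fun e he => hx' e fun h' => he (by
      simp only [U, mem_union]; exact Or.inr h')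
    have h2 : avg D (T L g) x = 0 := by
      unfold avg
      rw [Finset.expect_congr rfl (g := fun _ => (0 : ℝ)) ?_, Fintype.expect_const]
      intro y _
      refine ih _ fun x' hx' => h x' fun e he => ?_
      simp only [U, mem_union, not_or] at he
      rw [hx' e he.2, ow_not_mem _ _ _ _ he.1]
    show 2 * avg D (T L g) x - T L g x = 0
    rw [h1, h2]; ring

/-- if `g` vanishes wherever the point agrees with `x` on some block, then `T` is the average -/
lemma T_avg_eq (L : List (Finset ι)) (hL : L.Pairwise Disjoint) (g : (ι → Bool) → ℝ) :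
    ∀ x : ι → Bool, (∀ x', (∀ e, e ∉ U L → x' e = x e) → (∃ D ∈ L, ∀ e ∈ D, x' e = x e) →
      g x' = 0) → 2 ^ L.length * avg (U L) g x = T L g x := by
  induction L with
  | nil =>
    intro x _
    simp only [List.length_nil, pow_zero, one_mul, U, T, avg_empty]
  | cons D L ih =>
    intro x h
    have hD := (List.pairwise_cons.1 hL).1
    have hdis : ∀ e, e ∈ D → e ∉ U L := by
      intro e he h'
      obtain ⟨E, hE, heE⟩ := mem_U.1 h'
      exact (Finset.disjoint_left.1 (hD E hE)) he heE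
    have h1 : T L g x = 0 := by
      refine T_zero L g x fun x' hx' => h x' (fun e he => ?_) ⟨D, by simp, fun e he => ?_⟩
      · simp only [U, mem_union, not_or] at he
        exact hx' e he.2
      · exact hx' e (hdis e he)
    have h2 : ∀ y, 2 ^ L.length * avg (U L) g (ow D y x) = T L g (ow D y x) := by
      intro y
      refine ih (List.pairwise_cons.1 hL).2 _ fun x' hx' hE => h x' (fun e he => ?_) ?_
      · simp only [U, mem_union, not_or] at he
        rw [hx' e he.2, ow_not_mem _ _ _ _ he.1]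
      · obtain ⟨E, hE, hxE⟩ := hE
        refine ⟨E, by simp [hE], fun e he => ?_⟩
        rw [hxE e he, ow_not_mem]
        intro h'
        exact (Finset.disjoint_left.1 (hD E hE)) h' he
    show 2 ^ (L.length + 1) * avg (D ∪ U L) g x = 2 * avg D (T L g) x - T L g x
    rw [h1, sub_zero, ← avg_avg]
    have h3 : avg D (T L g) x = 2 ^ L.length * avg D (avg (U L) g) x := by
      unfold avg at h2 ⊢
      rw [Finset.mul_expect]
      exact Finset.expect_congr rfl fun y _ => (h2 y).symm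
    rw [h3, pow_succ]; ring

lemma exp_cs (g h : (ι → Bool) → ℝ) (u v : ℝ) (hg : 𝔼 x, g x ^ 2 = u) (hh : 𝔼 x, h x ^ 2 = v) :
    𝔼 x, g x * h x ≤ √u * √v := by
  rw [← hg, ← hh]; exact exp_mul_le g h

/-- **The local inequality.** -/
theorem local_ineq (k : ℕ) (D E : Fin k → Finset ι)
    (hD : ∀ i j, i ≠ j → Disjoint (D i) (D j)) (hE : ∀ i j, i ≠ j → Disjoint (E i) (E j))
    (X Y : Finset ι) (hX : X = univ.biUnion D) (hY : Y = univ.biUnion E) (hXY : Disjoint X Y)
    (a b : (ι → Bool) → ℝ) (_ha : Inv (X ∪ Y)ᶜ a) (hb : Inv (X ∪ Y)ᶜ b)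
    (hbl : ∀ x x', a x ≠ 0 → b x' ≠ 0 → ∀ i j, ¬ ((∀ e ∈ D i, x e = x' e) ∧
      (∀ e ∈ E j, x e = x' e))) :
    (2 ^ k) ^ 2 * ((𝔼 x, a x) * 𝔼 x, b x)
      ≤ 2 ^ k * (√(𝔼 x, avg Y a x ^ 2) * √(𝔼 x, avg Y b x ^ 2))
        + 2 ^ k * (√(𝔼 x, avg X a x ^ 2) * √(𝔼 x, avg X b x ^ 2))
        + √(𝔼 x, a x ^ 2) * √(𝔼 x, b x ^ 2) := by
  set LX := List.ofFn D with hLX
  set LY := List.ofFn E with hLY
  have hUX : U LX = X := by
    ext e
    rw [mem_U, hX]
    simp [hLX, List.mem_ofFn]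
  have hUY : U LY = Y := by
    ext e
    rw [mem_U, hY]
    simp [hLY, List.mem_ofFn]
  have hlX : LX.length = k := by simp [hLX]
  have hlY : LY.length = k := by simp [hLY]
  have hpX : LX.Pairwise Disjoint := by
    rw [hLX, List.pairwise_ofFn]
    intro i j hij
    exact hD i j hij.ne
  have hpY : LY.Pairwise Disjoint := by
    rw [hLY, List.pairwise_ofFn]
    intro i j hij
    exact hE i j hij.ne
  set g : (ι → Bool) → ℝ := fun x => 2 ^ k * avg Y b x - T LY b x with hg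
  have key : ∀ x, a x ≠ 0 → 2 ^ k * avg X g x = T LX g x := by
    intro x hx
    have h1 := T_avg_eq LX hpX g x
    rw [hlX, hUX] at h1
    refine h1 ?_
    intro x' hx' ⟨D', hD', hxD⟩
    obtain ⟨i, rfl⟩ := (List.mem_ofFn' D D').1 hD'
    have h2 := T_avg_eq LY hpY b x'
    rw [hlY, hUY] at h2
    rw [hg]
    simp only
    rw [h2, sub_self]
    intro x'' hx'' ⟨E', hE', hxE⟩
    obtain ⟨j, rfl⟩ := (List.mem_ofFn' E E').1 hE'
    by_contra hne
    refine hbl x x'' hx hne i j ⟨fun e he => ?_, fun e he => ?_⟩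
    · have heX : e ∈ X := by rw [hX]; exact mem_biUnion.2 ⟨i, mem_univ _, he⟩
      rw [hx'' e (fun h => (Finset.disjoint_left.1 hXY) heX h), hxD e he]
    · have heY : e ∈ Y := by rw [hY]; exact mem_biUnion.2 ⟨j, mem_univ _, he⟩
      rw [hxE e he, hx' e (fun h => (Finset.disjoint_left.1 hXY) h heY)]
  have hzero : 𝔼 x, a x * (2 ^ k * avg X g x - T LX g x) = 0 := by
    rw [Finset.expect_congr rfl (g := fun _ => (0 : ℝ)) ?_, Fintype.expect_const]
    intro x _
    by_cases hx : a x = 0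
    · rw [hx, zero_mul]
    · rw [key x hx, sub_self, mul_zero]
  -- expansion
  have hTsub : ∀ (L : List (Finset ι)) (c : ℝ) (u v : (ι → Bool) → ℝ),
      T L (fun x => c * u x - v x) = fun x => c * T L u x - T L v x := by
    intro L c u v
    induction L with
    | nil => rfl
    | cons D L ih =>
      show (fun x => 2 * avg D (T L fun x => c * u x - v x) x - (T L fun x => c * u x - v x) x)
        = fun x => c * (2 * avg D (T L u) x - T L u x) - (2 * avg D (T L v) x - T L v x)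
      rw [ih, avg_sub, avg_mul_left]
      funext x
      ring
  have hTg : T LX g = fun x => 2 ^ k * T LX (avg Y b) x - T LX (T LY b) x := hTsub LX _ _ _
  have hAg : avg X g = fun x => 2 ^ k * avg X (avg Y b) x - avg X (T LY b) x := by
    rw [hg, avg_sub, avg_mul_left]
  have hconst : ∀ x, avg X (avg Y b) x = 𝔼 y, b y := by
    intro x
    rw [avg_avg]
    unfold avg
    refine Finset.expect_congr rfl fun y _ => ?_
    refine hb.of_agree fun e he => ?_
    rw [mem_compl, not_not] at he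
    rw [ow_mem _ _ _ _ he]
  have h1 : 𝔼 x, a x * avg X (T LY b) x ≤ √(𝔼 x, avg X a x ^ 2) * √(𝔼 x, avg X b x ^ 2) := by
    have e1 : avg X (T LY b) = avg X (avg X (T LY b)) := (avg_idem X _).symm
    rw [e1, avg_adj, ← T_avg]
    exact exp_cs _ _ _ _ rfl (T_norm LY _)
  have h2 : 𝔼 x, a x * T LX (avg Y b) x ≤ √(𝔼 x, avg Y a x ^ 2) * √(𝔼 x, avg Y b x ^ 2) := by
    have e1 : T LX (avg Y b) = avg Y (T LX (avg Y b)) := by
      rw [← T_avg, avg_idem]
    rw [e1, avg_adj]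
    exact exp_cs _ _ _ _ rfl (T_norm LX _)
  have h3 : -(𝔼 x, a x * T LX (T LY b) x) ≤ √(𝔼 x, a x ^ 2) * √(𝔼 x, b x ^ 2) := by
    rw [← Finset.expect_neg_distrib]
    have e1 : ∀ x, -(a x * T LX (T LY b) x) = (-a x) * T LX (T LY b) x := fun x => by ring
    rw [Finset.expect_congr rfl fun x _ => e1 x]
    refine exp_cs _ _ _ _ ?_ ((T_norm LX _).trans (T_norm LY _))
    exact Finset.expect_congr rfl fun x _ => by ring
  have e2 : ∀ x, a x * (2 ^ k * avg X g x - T LX g x)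
      = (2 ^ k) ^ 2 * (a x * 𝔼 y, b y) - 2 ^ k * (a x * avg X (T LY b) x)
        - 2 ^ k * (a x * T LX (avg Y b) x) + a x * T LX (T LY b) x := by
    intro x
    rw [hTg, hAg]
    simp only
    rw [hconst]
    ring
  rw [Finset.expect_congr rfl fun x _ => e2 x, Finset.expect_add_distrib,
    Finset.expect_sub_distrib, Finset.expect_sub_distrib, ← Finset.mul_expect,
    ← Finset.mul_expect, ← Finset.mul_expect, ← Finset.expect_mul] at hzero
  have hN : (0 : ℝ) < 2 ^ k := by positivity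
  have h1' := mul_le_mul_of_nonneg_left h1 hN.le
  have h2' := mul_le_mul_of_nonneg_left h2 hN.le
  linarith

/-- **The constant 9.** -/
theorem local_const (k : ℕ) (D E : Fin k → Finset ι)
    (hD : ∀ i j, i ≠ j → Disjoint (D i) (D j)) (hE : ∀ i j, i ≠ j → Disjoint (E i) (E j))
    (X Y : Finset ι) (hX : X = univ.biUnion D) (hY : Y = univ.biUnion E) (hXY : Disjoint X Y)
    (a b : (ι → Bool) → ℝ) (ha : Inv (X ∪ Y)ᶜ a) (hb : Inv (X ∪ Y)ᶜ b)
    (hbl : ∀ x x', a x ≠ 0 → b x' ≠ 0 → ∀ i j, ¬ ((∀ e ∈ D i, x e = x' e) ∧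
      (∀ e ∈ E j, x e = x' e)))
    (ha0 : ∀ x, 0 ≤ a x) (ha1 : ∀ x, a x ≤ 1) (hb0 : ∀ x, 0 ≤ b x) (hb1 : ∀ x, b x ≤ 1)
    (xv xw yv yw : ℝ) (hxv : 0 ≤ xv) (hxw : 0 ≤ xw) (hyv : 0 ≤ yv) (hyw : 0 ≤ yw)
    (hav : ∀ x, avg X a x ≤ xv) (haw : ∀ x, avg Y a x ≤ xw)
    (hbv : ∀ x, avg X b x ≤ yv) (hbw : ∀ x, avg Y b x ≤ yw)
    (hv : xv * yv ≤ 1 / 4 ^ k) (hw : xw * yw ≤ 1 / 4 ^ k) :
    (𝔼 x, a x) * (𝔼 x, b x) ≤ 9 / 16 ^ k := by
  have h := local_ineq k D E hD hE X Y hX hY hXY a b ha hb hbl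
  set α := 𝔼 x, a x with hα
  set β := 𝔼 x, b x with hβ
  have hα0 : 0 ≤ α := Finset.expect_nonneg fun x _ => ha0 x
  have hβ0 : 0 ≤ β := Finset.expect_nonneg fun x _ => hb0 x
  set M := √(α * β) with hM
  have hM0 : 0 ≤ M := Real.sqrt_nonneg _
  have hM2 : M ^ 2 = α * β := Real.sq_sqrt (mul_nonneg hα0 hβ0)
  -- square bounds
  have sq : ∀ (Z : Finset ι) (u : (ι → Bool) → ℝ) (c : ℝ), (∀ x, 0 ≤ u x) →
      (∀ x, avg Z u x ≤ c) → 𝔼 x, avg Z u x ^ 2 ≤ c * 𝔼 x, u x := by
    intro Z u c hu hc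
    rw [← exp_avg Z u, Finset.mul_expect]
    refine Finset.expect_le_expect fun x _ => ?_
    rw [pow_two]
    exact mul_le_mul_of_nonneg_right (hc x) (le_avg Z hu x)
  have hN : (0 : ℝ) < 2 ^ k := by positivity
  have h4 : (1 : ℝ) / 4 ^ k = (1 / 2 ^ k) ^ 2 := by
    rw [div_pow, one_pow, ← pow_mul, mul_comm k 2, pow_mul]; norm_num
  have prod : ∀ (Z : Finset ι) (p q : ℝ), 0 ≤ p → 0 ≤ q → (∀ x, avg Z a x ≤ p) →
      (∀ x, avg Z b x ≤ q) → p * q ≤ 1 / 4 ^ k →
      2 ^ k * (√(𝔼 x, avg Z a x ^ 2) * √(𝔼 x, avg Z b x ^ 2)) ≤ M := by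
    intro Z p q hp hq hap hbq hpq
    have e1 : √(𝔼 x, avg Z a x ^ 2) * √(𝔼 x, avg Z b x ^ 2) ≤ √(p * α) * √(q * β) :=
      mul_le_mul (Real.sqrt_le_sqrt (sq Z a p ha0 hap)) (Real.sqrt_le_sqrt (sq Z b q hb0 hbq))
        (Real.sqrt_nonneg _) (Real.sqrt_nonneg _)
    have e2 : √(p * α) * √(q * β) ≤ 1 / 2 ^ k * M := by
      rw [← Real.sqrt_mul (mul_nonneg hp hα0), hM]
      refine Real.sqrt_le_iff.2 ⟨by positivity, ?_⟩
      rw [mul_pow, Real.sq_sqrt (mul_nonneg hα0 hβ0), ← h4]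
      calc p * α * (q * β) = (p * q) * (α * β) := by ring
        _ ≤ _ := mul_le_mul_of_nonneg_right hpq (mul_nonneg hα0 hβ0)
    calc _ ≤ 2 ^ k * (1 / 2 ^ k * M) := mul_le_mul_of_nonneg_left (e1.trans e2) hN.le
      _ = M := by field_simp
  have p1 := prod X xv yv hxv hyv hav hbv hv
  have p2 := prod Y xw yw hxw hyw haw hbw hw
  have p3 : √(𝔼 x, a x ^ 2) * √(𝔼 x, b x ^ 2) ≤ M := by
    rw [hM, Real.sqrt_mul hα0]
    refine mul_le_mul (Real.sqrt_le_sqrt ?_) (Real.sqrt_le_sqrt ?_) (Real.sqrt_nonneg _)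
      (Real.sqrt_nonneg _)
    · exact Finset.expect_le_expect fun x _ => by
        rw [pow_two]; exact mul_le_of_le_one_left (ha0 x) (ha1 x)
    · exact Finset.expect_le_expect fun x _ => by
        rw [pow_two]; exact mul_le_of_le_one_left (hb0 x) (hb1 x)
  have h5 : (2 ^ k) ^ 2 * M ^ 2 ≤ 3 * M := by
    rw [hM2]; linarith
  have h6 : (2 ^ k) ^ 2 * M ≤ 3 := by
    rcases eq_or_lt_of_le hM0 with h0 | h0
    · rw [← h0]; norm_num
    · have : M * ((2 ^ k) ^ 2 * M) ≤ M * 3 := by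
        calc _ = (2 ^ k) ^ 2 * M ^ 2 := by ring
          _ ≤ 3 * M := h5
          _ = _ := by ring
      exact le_of_mul_le_mul_left this h0
  have h7 : (16 : ℝ) ^ k = ((2 ^ k) ^ 2) ^ 2 := by
    have e16 : (16 : ℝ) = 2 ^ 4 := by norm_num
    rw [e16, ← pow_mul, ← pow_mul, ← pow_mul]
    congr 1
    ring
  rw [← hM2, h7, le_div_iff₀ (by positivity)]
  have h8 : 0 ≤ (2 ^ k : ℝ) ^ 2 * M := by positivity
  nlinarith

end Pool.Agent.Helper64.PX3
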