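import Mathlib
import Pool.Agent.Helper64.PX3.Local

set_option autoImplicit false

/-! # The refined local inequality -/

namespace Pool.Agent.Helper64.PX3

open Finset Pool.Agent.Helper41.PX
open scoped BigOperators

variable {ι : Type*} [Fintype ι] [DecidableEq ι]

lemma T_lin (L : List (Finset ι)) (c : ℝ) (u v : (ι → Bool) → ℝ) :
    T L (fun x => c * u x - v x) = fun x => c * T L u x - T L v x := by
  induction L with
  | nil => rfl
  | cons D L ih =>
    show (fun x => 2 * avg D (T L fun x => c * u x - v x) x - (T L fun x => c * u x - v x) x)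
      = fun x => c * (2 * avg D (T L u) x - T L u x) - (2 * avg D (T L v) x - T L v x)
    rw [ih, avg_sub, avg_mul_left]
    funext x
    ring

lemma T_sub (L : List (Finset ι)) (u v : (ι → Bool) → ℝ) :
    T L (fun x => u x - v x) = fun x => T L u x - T L v x := by
  have := T_lin L 1 u v
  simpa only [one_mul] using this

lemma avg_const (D : Finset ι) (c : ℝ) : avg D (fun _ : ι → Bool => c) = fun _ => c := by
  funext x; unfold avg; simp

lemma T_const (L : List (Finset ι)) (c : ℝ) : T L (fun _ : ι → Bool => c) = fun _ => c := by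
  induction L with
  | nil => rfl
  | cons D L ih =>
    show (fun x => 2 * avg D (T L fun _ => c) x - (T L fun _ => c) x) = fun _ => c
    rw [ih, avg_const]
    funext x; ring

lemma exp_T (L : List (Finset ι)) (g : (ι → Bool) → ℝ) : 𝔼 x, T L g x = 𝔼 x, g x := by
  induction L with
  | nil => rfl
  | cons D L ih =>
    show 𝔼 x, (2 * avg D (T L g) x - T L g x) = 𝔼 x, g x
    rw [Finset.expect_sub_distrib, ← Finset.mul_expect, exp_avg, ih]
    ring

/-- `T` fixes the functions that do not depend on its blocks -/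
lemma T_fix (L : List (Finset ι)) (E : Finset ι) (hL : ∀ D ∈ L, D ⊆ E) (g : (ι → Bool) → ℝ) :
    T L (avg E g) = avg E g := by
  induction L with
  | nil => rfl
  | cons D L ih =>
    show (fun x => 2 * avg D (T L (avg E g)) x - T L (avg E g) x) = avg E g
    rw [ih fun D' hD' => hL D' (List.mem_cons_of_mem _ hD'), avg_avg,
      union_eq_right.2 (hL D List.mem_cons_self)]
    funext x; ring

/-- **The exact identity for blocked pairs.** -/
theorem local_identity (k : ℕ) (D E : Fin k → Finset ι)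
    (hD : ∀ i j, i ≠ j → Disjoint (D i) (D j)) (hE : ∀ i j, i ≠ j → Disjoint (E i) (E j))
    (X Y : Finset ι) (hX : X = univ.biUnion D) (hY : Y = univ.biUnion E) (hXY : Disjoint X Y)
    (a b : (ι → Bool) → ℝ) (hb : Inv (X ∪ Y)ᶜ b)
    (hbl : ∀ x x', a x ≠ 0 → b x' ≠ 0 → ∀ i j, ¬ ((∀ e ∈ D i, x e = x' e) ∧
      (∀ e ∈ E j, x e = x' e))) :
    (2 ^ k) ^ 2 * ((𝔼 x, a x) * 𝔼 x, b x)
      = 2 ^ k * (𝔼 x, avg Y a x * T (List.ofFn D) (avg Y b) x)
        + 2 ^ k * (𝔼 x, avg X a x * T (List.ofFn E) (avg X b) x)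
        - 𝔼 x, a x * T (List.ofFn D) (T (List.ofFn E) b) x := by
  set LX := List.ofFn D with hLX
  set LY := List.ofFn E with hLY
  have hUX : U LX = X := by
    ext e
    rw [mem_U, hX]
    simp [hLX, List.mem_ofFn]
  have hUY : U LY = Y := by
    ext e
    rw [mem_U, hY]
    simp [hLY, List.mem_ofFn]
  have hlX : LX.length = k := by simp [hLX]
  have hlY : LY.length = k := by simp [hLY]
  have hpX : LX.Pairwise Disjoint := by
    rw [hLX, List.pairwise_ofFn]
    intro i j hij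
    exact hD i j hij.ne
  have hpY : LY.Pairwise Disjoint := by
    rw [hLY, List.pairwise_ofFn]
    intro i j hij
    exact hE i j hij.ne
  set g : (ι → Bool) → ℝ := fun x => 2 ^ k * avg Y b x - T LY b x with hg
  have key : ∀ x, a x ≠ 0 → 2 ^ k * avg X g x = T LX g x := by
    intro x hx
    have h1 := T_avg_eq LX hpX g x
    rw [hlX, hUX] at h1
    refine h1 ?_
    intro x' hx' ⟨D', hD', hxD⟩
    obtain ⟨i, rfl⟩ := (List.mem_ofFn' D D').1 hD'
    have h2 := T_avg_eq LY hpY b x'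
    rw [hlY, hUY] at h2
    rw [hg]
    simp only
    rw [h2, sub_self]
    intro x'' hx'' ⟨E', hE', hxE⟩
    obtain ⟨j, rfl⟩ := (List.mem_ofFn' E E').1 hE'
    by_contra hne
    refine hbl x x'' hx hne i j ⟨fun e he => ?_, fun e he => ?_⟩
    · have heX : e ∈ X := by rw [hX]; exact mem_biUnion.2 ⟨i, mem_univ _, he⟩
      rw [hx'' e (fun h => (Finset.disjoint_left.1 hXY) heX h), hxD e he]
    · have heY : e ∈ Y := by rw [hY]; exact mem_biUnion.2 ⟨j, mem_univ _, he⟩
      rw [hxE e he, hx' e (fun h => (Finset.disjoint_left.1 hXY) h heY)]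
  have hzero : 𝔼 x, a x * (2 ^ k * avg X g x - T LX g x) = 0 := by
    rw [Finset.expect_congr rfl (g := fun _ => (0 : ℝ)) ?_, Fintype.expect_const]
    intro x _
    by_cases hx : a x = 0
    · rw [hx, zero_mul]
    · rw [key x hx, sub_self, mul_zero]
  have hTg : T LX g = fun x => 2 ^ k * T LX (avg Y b) x - T LX (T LY b) x := T_lin LX _ _ _
  have hAg : avg X g = fun x => 2 ^ k * avg X (avg Y b) x - avg X (T LY b) x := by
    rw [hg, avg_sub, avg_mul_left]
  have hconst : ∀ x, avg X (avg Y b) x = 𝔼 y, b y := by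
    intro x
    rw [avg_avg]
    unfold avg
    refine Finset.expect_congr rfl fun y _ => ?_
    refine hb.of_agree fun e he => ?_
    rw [mem_compl, not_not] at he
    rw [ow_mem _ _ _ _ he]
  have h1 : 𝔼 x, a x * avg X (T LY b) x = 𝔼 x, avg X a x * T LY (avg X b) x := by
    have e1 : avg X (T LY b) = avg X (avg X (T LY b)) := (avg_idem X _).symm
    rw [e1, avg_adj, ← T_avg]
  have h2 : 𝔼 x, a x * T LX (avg Y b) x = 𝔼 x, avg Y a x * T LX (avg Y b) x := by
    have e1 : T LX (avg Y b) = avg Y (T LX (avg Y b)) := by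
      rw [← T_avg, avg_idem]
    conv_lhs => rw [e1, avg_adj]
  have e2 : ∀ x, a x * (2 ^ k * avg X g x - T LX g x)
      = (2 ^ k) ^ 2 * (a x * 𝔼 y, b y) - 2 ^ k * (a x * avg X (T LY b) x)
        - 2 ^ k * (a x * T LX (avg Y b) x) + a x * T LX (T LY b) x := by
    intro x
    rw [hTg, hAg]
    simp only
    rw [hconst]
    ring
  rw [Finset.expect_congr rfl fun x _ => e2 x, Finset.expect_add_distrib,
    Finset.expect_sub_distrib, Finset.expect_sub_distrib, ← Finset.mul_expect,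
    ← Finset.mul_expect, ← Finset.mul_expect, ← Finset.expect_mul, h1, h2] at hzero
  linarith

/-- **The refined local inequality** (marginals subtracted). -/
theorem local_refined (k : ℕ) (D E : Fin k → Finset ι)
    (hD : ∀ i j, i ≠ j → Disjoint (D i) (D j)) (hE : ∀ i j, i ≠ j → Disjoint (E i) (E j))
    (X Y : Finset ι) (hX : X = univ.biUnion D) (hY : Y = univ.biUnion E) (hXY : Disjoint X Y)
    (a b : (ι → Bool) → ℝ) (ha : Inv (X ∪ Y)ᶜ a) (hb : Inv (X ∪ Y)ᶜ b)
    (hbl : ∀ x x', a x ≠ 0 → b x' ≠ 0 → ∀ i j, ¬ ((∀ e ∈ D i, x e = x' e) ∧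
      (∀ e ∈ E j, x e = x' e))) :
    (2 ^ k - 1) ^ 2 * ((𝔼 x, a x) * 𝔼 x, b x)
      ≤ (2 ^ k - 1) * (√(𝔼 x, avg Y a x ^ 2 - (𝔼 x, a x) ^ 2)
          * √(𝔼 x, avg Y b x ^ 2 - (𝔼 x, b x) ^ 2))
        + (2 ^ k - 1) * (√(𝔼 x, avg X a x ^ 2 - (𝔼 x, a x) ^ 2)
          * √(𝔼 x, avg X b x ^ 2 - (𝔼 x, b x) ^ 2))
        + √(𝔼 x, a x ^ 2 - 𝔼 x, avg Y a x ^ 2 - 𝔼 x, avg X a x ^ 2 + (𝔼 x, a x) ^ 2)
          * √(𝔼 x, b x ^ 2 - 𝔼 x, avg Y b x ^ 2 - 𝔼 x, avg X b x ^ 2 + (𝔼 x, b x) ^ 2) := by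
  have hid := local_identity k D E hD hE X Y hX hY hXY a b hb hbl
  set LX := List.ofFn D with hLX
  set LY := List.ofFn E with hLY
  have hsX : ∀ D' ∈ LX, D' ⊆ X := by
    intro D' hD'
    obtain ⟨i, rfl⟩ := (List.mem_ofFn' D D').1 hD'
    rw [hX]; exact subset_biUnion_of_mem D (mem_univ i)
  have hsY : ∀ D' ∈ LY, D' ⊆ Y := by
    intro D' hD'
    obtain ⟨i, rfl⟩ := (List.mem_ofFn' E D').1 hD'
    rw [hY]; exact subset_biUnion_of_mem E (mem_univ i)
  have hconst : ∀ (u : (ι → Bool) → ℝ), Inv (X ∪ Y)ᶜ u → avg X (avg Y u) = fun _ => 𝔼 y, u y := by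
    intro u hu
    funext x
    rw [avg_avg]
    unfold avg
    refine Finset.expect_congr rfl fun y _ => ?_
    refine hu.of_agree fun e he => ?_
    rw [mem_compl, not_not] at he
    rw [ow_mem _ _ _ _ he]
  have hconst' : ∀ (u : (ι → Bool) → ℝ), Inv (X ∪ Y)ᶜ u → avg Y (avg X u) = fun _ => 𝔼 y, u y := by
    intro u hu
    rw [avg_comm]; exact hconst u hu
  set s := 𝔼 x, a x with hs
  set s' := 𝔼 x, b x with hs'
  -- second moments after subtraction of the mean
  have hvar : ∀ (Z : Finset ι) (u : (ι → Bool) → ℝ),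
      𝔼 x, (avg Z u x - 𝔼 y, u y) ^ 2 = 𝔼 x, avg Z u x ^ 2 - (𝔼 y, u y) ^ 2 := by
    intro Z u
    have e : ∀ x, (avg Z u x - 𝔼 y, u y) ^ 2
        = avg Z u x ^ 2 - 2 * (𝔼 y, u y) * avg Z u x + (𝔼 y, u y) ^ 2 := fun x => by ring
    rw [Finset.expect_congr rfl fun x _ => e x, Finset.expect_add_distrib,
      Finset.expect_sub_distrib, ← Finset.mul_expect, exp_avg, Fintype.expect_const]
    ring
  -- marginal terms
  have hmarg : ∀ (Z : Finset ι) (L : List (Finset ι)),
      𝔼 x, avg Z a x * T L (avg Z b) x - s * s'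
        ≤ √(𝔼 x, avg Z a x ^ 2 - s ^ 2) * √(𝔼 x, avg Z b x ^ 2 - s' ^ 2) := by
    intro Z L
    have e1 : 𝔼 x, (avg Z a x - s) * T L (fun x => avg Z b x - s') x
        = 𝔼 x, avg Z a x * T L (avg Z b) x - s * s' := by
      rw [T_sub, T_const]
      have e : ∀ x, (avg Z a x - s) * (T L (avg Z b) x - s')
          = avg Z a x * T L (avg Z b) x - s * T L (avg Z b) x - s' * avg Z a x + s * s' :=
        fun x => by ring
      rw [Finset.expect_congr rfl fun x _ => e x, Finset.expect_add_distrib,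
        Finset.expect_sub_distrib, Finset.expect_sub_distrib, ← Finset.mul_expect,
        ← Finset.mul_expect, exp_T, exp_avg, exp_avg, Fintype.expect_const, ← hs, ← hs']
      ring
    rw [← e1]
    refine exp_cs _ _ _ _ (hvar Z a) ?_
    rw [T_norm]; exact hvar Z b
  have hm1 := hmarg Y LX
  have hm2 := hmarg X LY
  -- the remainder
  set r : (ι → Bool) → ℝ := fun x => a x - avg Y a x - avg X a x + s with hr
  set r' : (ι → Bool) → ℝ := fun x => b x - avg Y b x - avg X b x + s' with hr'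
  have hnorm : ∀ (u : (ι → Bool) → ℝ), Inv (X ∪ Y)ᶜ u →
      𝔼 x, (u x - avg Y u x - avg X u x + 𝔼 y, u y) ^ 2
        = 𝔼 x, u x ^ 2 - 𝔼 x, avg Y u x ^ 2 - 𝔼 x, avg X u x ^ 2 + (𝔼 y, u y) ^ 2 := by
    intro u hu
    have e : ∀ x, (u x - avg Y u x - avg X u x + 𝔼 y, u y) ^ 2
        = u x ^ 2 + avg Y u x ^ 2 + avg X u x ^ 2 + (𝔼 y, u y) ^ 2 - 2 * (u x * avg Y u x)
          - 2 * (u x * avg X u x) + 2 * (𝔼 y, u y) * u x + 2 * (avg Y u x * avg X u x)
          - 2 * (𝔼 y, u y) * avg Y u x - 2 * (𝔼 y, u y) * avg X u x := fun x => by ring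
    have e1 : 𝔼 x, avg Y u x * avg X u x = (𝔼 y, u y) ^ 2 := by
      have h1 := avg_adj X (avg Y u) u
      rw [hconst u hu] at h1
      rw [h1, ← Finset.mul_expect]; ring
    rw [Finset.expect_congr rfl fun x _ => e x]
    simp only [Finset.expect_sub_distrib, Finset.expect_add_distrib, ← Finset.mul_expect,
      exp_mul_avg_self, exp_avg, Fintype.expect_const, e1]
    ring
  have hTr : T LX (T LY r') = fun x => T LX (T LY b) x - T LX (avg Y b) x - T LY (avg X b) x + s' := by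
    have e1 : r' = fun x => (fun x => b x - avg Y b x) x - (fun x => avg X b x - s') x := by
      funext x; rw [hr']; ring
    have e2 : T LX (T LY (avg X b)) = T LY (avg X b) := by
      rw [T_avg, T_fix LX X hsX]
    rw [e1]
    simp only [T_sub, T_const, T_fix LY Y hsY, e2]
    funext x; ring
  have havY : avg Y r = fun _ => 0 := by
    have e1 : r = fun x => (fun x => a x - avg Y a x) x - (fun x => avg X a x - s) x := by
      funext x; rw [hr]; ring
    rw [e1, avg_sub, avg_sub, avg_sub, avg_idem, hconst' a ha, avg_const]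
    funext x; ring
  have havX : avg X r = fun _ => 0 := by
    have e1 : r = fun x => (fun x => a x - avg X a x) x - (fun x => avg Y a x - s) x := by
      funext x; rw [hr]; ring
    rw [e1, avg_sub, avg_sub, avg_sub, avg_idem, hconst a ha, avg_const]
    funext x; ring
  have hr0 : 𝔼 x, r x = 0 := by rw [← exp_avg Y r, havY, Fintype.expect_const]
  have o1 : 𝔼 x, r x * T LX (avg Y b) x = 0 := by
    rw [T_avg, avg_adj, havY]; simp
  have o2 : 𝔼 x, r x * T LY (avg X b) x = 0 := by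
    rw [T_avg, avg_adj, havX]; simp
  have hproj : ∀ (Z : Finset ι) (u w : (ι → Bool) → ℝ),
      𝔼 x, avg Z u x * w x = 𝔼 x, avg Z u x * avg Z w x := by
    intro Z u w
    rw [avg_adj, avg_idem]
  have o3 : 𝔼 x, avg Y a x * T LX (T LY b) x = 𝔼 x, avg Y a x * T LX (avg Y b) x := by
    rw [hproj, ← T_avg LX, ← T_avg LY, T_fix LY Y hsY]
  have o4 : 𝔼 x, avg X a x * T LX (T LY b) x = 𝔼 x, avg X a x * T LY (avg X b) x := by
    rw [hproj, ← T_avg LX, T_fix LX X hsX, ← T_avg LY]
  have hR : 𝔼 x, r x * T LX (T LY r') x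
      = 𝔼 x, a x * T LX (T LY b) x - 𝔼 x, avg Y a x * T LX (avg Y b) x
        - 𝔼 x, avg X a x * T LY (avg X b) x + s * s' := by
    rw [hTr]
    have e1 : ∀ x, r x * (T LX (T LY b) x - T LX (avg Y b) x - T LY (avg X b) x + s')
        = r x * T LX (T LY b) x - r x * T LX (avg Y b) x - r x * T LY (avg X b) x + s' * r x :=
      fun x => by ring
    rw [Finset.expect_congr rfl fun x _ => e1 x, Finset.expect_add_distrib,
      Finset.expect_sub_distrib, Finset.expect_sub_distrib, o1, o2, ← Finset.mul_expect, hr0]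
    have e2 : ∀ x, r x * T LX (T LY b) x = a x * T LX (T LY b) x - avg Y a x * T LX (T LY b) x
        - avg X a x * T LX (T LY b) x + s * T LX (T LY b) x := fun x => by rw [hr]; ring
    rw [Finset.expect_congr rfl fun x _ => e2 x, Finset.expect_add_distrib,
      Finset.expect_sub_distrib, Finset.expect_sub_distrib, o3, o4, ← Finset.mul_expect, exp_T,
      exp_T]
    ring
  have hm3 : -(𝔼 x, r x * T LX (T LY r') x)
      ≤ √(𝔼 x, a x ^ 2 - 𝔼 x, avg Y a x ^ 2 - 𝔼 x, avg X a x ^ 2 + s ^ 2)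
          * √(𝔼 x, b x ^ 2 - 𝔼 x, avg Y b x ^ 2 - 𝔼 x, avg X b x ^ 2 + s' ^ 2) := by
    rw [← Finset.expect_neg_distrib]
    have e1 : ∀ x, -(r x * T LX (T LY r') x) = (-r x) * T LX (T LY r') x := fun x => by ring
    rw [Finset.expect_congr rfl fun x _ => e1 x]
    refine exp_cs _ _ _ _ ?_ ?_
    · rw [← hnorm a ha]
      exact Finset.expect_congr rfl fun x _ => by rw [hr]; ring
    · rw [T_norm, T_norm, ← hnorm b hb]
  rw [hR] at hm3
  have h2k : (1 : ℝ) ≤ 2 ^ k := one_le_pow₀ (by norm_num)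
  have hm1' := mul_le_mul_of_nonneg_left hm1 (sub_nonneg.2 h2k)
  have hm2' := mul_le_mul_of_nonneg_left hm2 (sub_nonneg.2 h2k)
  nlinarith [hm1', hm2', hm3, hid]

end Pool.Agent.Helper64.PX3
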