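import Mathlib
import Pool.Agent.Helper64.PX3.Local2

set_option autoImplicit false

/-! # The mixed local bound: one function with one cap, the other with both caps -/

namespace Pool.Agent.Helper64.PX3

open Finset Pool.Agent.Helper41.PX
open scoped BigOperators

variable {ι : Type*} [Fintype ι] [DecidableEq ι]

lemma amgm (u v s s' Λ : ℝ) (hu : 0 ≤ u) (hv : 0 ≤ v) (hs : 0 < s) (hs' : 0 < s') (hΛ : 0 < Λ) :
    √u * √v ≤ √(s * s') * ((Λ * (u / s) + v / s' / Λ) / 2) := by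
  set A := Λ * (u / s) with hA
  set B := v / s' / Λ with hB
  have hA0 : 0 ≤ A := by positivity
  have hB0 : 0 ≤ B := by positivity
  have e : √u * √v = √(s * s') * √(A * B) := by
    rw [← Real.sqrt_mul hu, ← Real.sqrt_mul (by positivity)]
    congr 1
    rw [hA, hB]
    field_simp
  rw [e]
  refine mul_le_mul_of_nonneg_left ?_ (Real.sqrt_nonneg _)
  refine Real.sqrt_le_iff.2 ⟨by positivity, ?_⟩
  nlinarith [sq_nonneg (A - B)]

lemma var_nonneg (Z : Finset ι) (u : (ι → Bool) → ℝ) :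
    0 ≤ 𝔼 x, avg Z u x ^ 2 - (𝔼 y, u y) ^ 2 := by
  have e : ∀ x, (avg Z u x - 𝔼 y, u y) ^ 2
      = avg Z u x ^ 2 - 2 * (𝔼 y, u y) * avg Z u x + (𝔼 y, u y) ^ 2 := fun x => by ring
  have h : 𝔼 x, (avg Z u x - 𝔼 y, u y) ^ 2 = 𝔼 x, avg Z u x ^ 2 - (𝔼 y, u y) ^ 2 := by
    rw [Finset.expect_congr rfl fun x _ => e x, Finset.expect_add_distrib,
      Finset.expect_sub_distrib, ← Finset.mul_expect, exp_avg, Fintype.expect_const]
    ring
  rw [← h]
  exact Finset.expect_nonneg fun _ _ => sq_nonneg _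

lemma rem_nonneg (X Y : Finset ι) (u : (ι → Bool) → ℝ) (hu : Inv (X ∪ Y)ᶜ u) :
    0 ≤ 𝔼 x, u x ^ 2 - 𝔼 x, avg Y u x ^ 2 - 𝔼 x, avg X u x ^ 2 + (𝔼 y, u y) ^ 2 := by
  have hconst : avg X (avg Y u) = fun _ => 𝔼 y, u y := by
    funext x
    rw [avg_avg]
    unfold avg
    refine Finset.expect_congr rfl fun y _ => ?_
    refine hu.of_agree fun e he => ?_
    rw [mem_compl, not_not] at he
    rw [ow_mem _ _ _ _ he]
  have e : ∀ x, (u x - avg Y u x - avg X u x + 𝔼 y, u y) ^ 2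
      = u x ^ 2 + avg Y u x ^ 2 + avg X u x ^ 2 + (𝔼 y, u y) ^ 2 - 2 * (u x * avg Y u x)
        - 2 * (u x * avg X u x) + 2 * (𝔼 y, u y) * u x + 2 * (avg Y u x * avg X u x)
        - 2 * (𝔼 y, u y) * avg Y u x - 2 * (𝔼 y, u y) * avg X u x := fun x => by ring
  have e1 : 𝔼 x, avg Y u x * avg X u x = (𝔼 y, u y) ^ 2 := by
    have h1 := avg_adj X (avg Y u) u
    rw [hconst] at h1
    rw [h1, ← Finset.mul_expect]; ring
  have h : 𝔼 x, (u x - avg Y u x - avg X u x + 𝔼 y, u y) ^ 2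
      = 𝔼 x, u x ^ 2 - 𝔼 x, avg Y u x ^ 2 - 𝔼 x, avg X u x ^ 2 + (𝔼 y, u y) ^ 2 := by
    rw [Finset.expect_congr rfl fun x _ => e x]
    simp only [Finset.expect_sub_distrib, Finset.expect_add_distrib, ← Finset.mul_expect,
      exp_mul_avg_self, exp_avg, Fintype.expect_const, e1]
    ring
  rw [← h]
  exact Finset.expect_nonneg fun _ _ => sq_nonneg _

lemma cap_sq (Z : Finset ι) (u : (ι → Bool) → ℝ) (c : ℝ) (hu : ∀ x, 0 ≤ u x)
    (hc : ∀ x, avg Z u x ≤ c) : 𝔼 x, avg Z u x ^ 2 ≤ c * 𝔼 x, u x := by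
  rw [← exp_avg Z u, Finset.mul_expect]
  refine Finset.expect_le_expect fun x _ => ?_
  rw [pow_two]
  exact mul_le_mul_of_nonneg_right (hc x) (le_avg Z hu x)

/-- **The mixed bound.** `a` has a cap only for `avg X`, `b` has caps for both averages. -/
theorem local_mixed (k : ℕ) (D E : Fin k → Finset ι)
    (hD : ∀ i j, i ≠ j → Disjoint (D i) (D j)) (hE : ∀ i j, i ≠ j → Disjoint (E i) (E j))
    (X Y : Finset ι) (hX : X = univ.biUnion D) (hY : Y = univ.biUnion E) (hXY : Disjoint X Y)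
    (a b : (ι → Bool) → ℝ) (ha : Inv (X ∪ Y)ᶜ a) (hb : Inv (X ∪ Y)ᶜ b)
    (hbl : ∀ x x', a x ≠ 0 → b x' ≠ 0 → ∀ i j, ¬ ((∀ e ∈ D i, x e = x' e) ∧
      (∀ e ∈ E j, x e = x' e)))
    (ha0 : ∀ x, 0 ≤ a x) (ha1 : ∀ x, a x ≤ 1) (hb0 : ∀ x, 0 ≤ b x) (hb1 : ∀ x, b x ≤ 1)
    (g g' d' : ℝ) (hg1 : g ≤ 1) (hg0 : 0 ≤ g) (hg'0 : 0 ≤ g') (hg'1 : g' ≤ 1) (hd' : 0 ≤ d')
    (hag : ∀ x, avg X a x ≤ g) (hbg : ∀ x, avg X b x ≤ g') (hbd : ∀ x, avg Y b x ≤ d')
    (L l τ : ℝ) (hL : 0 < L) (hl : 0 < l) (hLl : L ≤ (2 ^ k - 1) * l) (hlL : l ≤ (2 ^ k - 1) * L)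
    (hτ0 : 0 ≤ τ)
    (hτ : τ ^ 2 ≤ ((2 ^ k - 1) * l) * (((2 ^ k - 1) ^ 2 - 1) / L + (2 ^ k - 1) / l)) :
    √((𝔼 x, a x) * 𝔼 x, b x) * ((2 ^ k - 1) ^ 2 + τ)
      ≤ (L * (1 - g) + (2 ^ k - 1) * l * g + (1 - g' + ((2 ^ k - 1) ^ 2 - 1) * d') / L
          + (2 ^ k - 1) * g' / l) / 2 := by
  have h2k : (1 : ℝ) ≤ 2 ^ k := one_le_pow₀ (by norm_num)
  have href := local_refined k D E hD hE X Y hX hY hXY a b ha hb hbl
  set n : ℝ := 2 ^ k - 1 with hn
  have hn0 : 0 ≤ n := by linarith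
  have hn1 : 1 ≤ n := by
    -- from the two conditions on the weights
    by_contra hlt
    push Not at hlt
    have h1 : L < l := lt_of_le_of_lt hLl (by nlinarith)
    have h2 : l < L := lt_of_le_of_lt hlL (by nlinarith)
    linarith
  have hn2 : 0 ≤ n ^ 2 - 1 := by nlinarith
  set s := 𝔼 x, a x with hs
  set s' := 𝔼 x, b x with hs'
  have hs0 : 0 ≤ s := Finset.expect_nonneg fun x _ => ha0 x
  have hs'0 : 0 ≤ s' := Finset.expect_nonneg fun x _ => hb0 x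
  have hα : 0 ≤ L * (1 - g) + n * l * g :=
    add_nonneg (mul_nonneg hL.le (by linarith)) (by positivity)
  have hβ : 0 ≤ (1 - g' + (n ^ 2 - 1) * d') / L + n * g' / l :=
    add_nonneg (div_nonneg (add_nonneg (by linarith) (mul_nonneg hn2 hd')) hL.le) (by positivity)
  rcases eq_or_lt_of_le hs0 with h0 | hspos
  · rw [← h0, zero_mul, Real.sqrt_zero, zero_mul]; linarith
  rcases eq_or_lt_of_le hs'0 with h0 | hs'pos
  · rw [← h0, mul_zero, Real.sqrt_zero, zero_mul]; linarith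
  -- the six quantities
  set uY := 𝔼 x, avg Y a x ^ 2 - s ^ 2 with huY
  set uX := 𝔼 x, avg X a x ^ 2 - s ^ 2 with huX
  set ur := 𝔼 x, a x ^ 2 - 𝔼 x, avg Y a x ^ 2 - 𝔼 x, avg X a x ^ 2 + s ^ 2 with hur
  set vY := 𝔼 x, avg Y b x ^ 2 - s' ^ 2 with hvY
  set vX := 𝔼 x, avg X b x ^ 2 - s' ^ 2 with hvX
  set vr := 𝔼 x, b x ^ 2 - 𝔼 x, avg Y b x ^ 2 - 𝔼 x, avg X b x ^ 2 + s' ^ 2 with hvr
  have p1 : 0 ≤ uY := var_nonneg Y a
  have p2 : 0 ≤ uX := var_nonneg X a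
  have p3 : 0 ≤ ur := rem_nonneg X Y a ha
  have p4 : 0 ≤ vY := var_nonneg Y b
  have p5 : 0 ≤ vX := var_nonneg X b
  have p6 : 0 ≤ vr := rem_nonneg X Y b hb
  have hsqa : 𝔼 x, a x ^ 2 ≤ s := Finset.expect_le_expect fun x _ => by
    rw [pow_two]; exact mul_le_of_le_one_left (ha0 x) (ha1 x)
  have hsqb : 𝔼 x, b x ^ 2 ≤ s' := Finset.expect_le_expect fun x _ => by
    rw [pow_two]; exact mul_le_of_le_one_left (hb0 x) (hb1 x)
  have q1 : uY + ur ≤ s - s ^ 2 - uX := by rw [huY, hur, huX]; linarith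
  have q2 : uX ≤ g * s - s ^ 2 := by
    have := cap_sq X a g ha0 hag
    rw [huX]; linarith
  have q3 : vY ≤ d' * s' - s' ^ 2 := by
    have := cap_sq Y b d' hb0 hbd
    rw [hvY]; linarith
  have q4 : vX ≤ g' * s' - s' ^ 2 := by
    have := cap_sq X b g' hb0 hbg
    rw [hvX]; linarith
  have q5 : vr ≤ s' - s' ^ 2 - vX - vY := by rw [hvr, hvX, hvY]; linarith
  set M := √(s * s') with hM
  have hM0 : 0 < M := Real.sqrt_pos.2 (mul_pos hspos hs'pos)
  have hM2 : M ^ 2 = s * s' := Real.sq_sqrt (by positivity)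
  -- AM-GM
  have a1 : n * (√uY * √vY) ≤ M * ((L * (uY / s) + n ^ 2 * vY / s' / L) / 2) := by
    have := amgm uY (n ^ 2 * vY) s s' L p1 (by positivity) hspos hs'pos hL
    have e : √(n ^ 2 * vY) = n * √vY := by
      rw [Real.sqrt_mul (sq_nonneg n), Real.sqrt_sq hn0]
    rw [e] at this
    calc _ = √uY * (n * √vY) := by ring
      _ ≤ _ := this
  have a2 := amgm ur vr s s' L p3 p6 hspos hs'pos hL
  have a3 : n * (√uX * √vX) ≤ n * (M * ((l * (uX / s) + vX / s' / l) / 2)) :=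
    mul_le_mul_of_nonneg_left (amgm uX vX s s' l p2 p5 hspos hs'pos hl) hn0
  have hsum : n ^ 2 * M ^ 2 ≤ M * ((L * (uY / s) + n ^ 2 * vY / s' / L) / 2)
      + n * (M * ((l * (uX / s) + vX / s' / l) / 2)) + M * ((L * (ur / s) + vr / s' / L) / 2) := by
    rw [hM2]; linarith
  -- normalised bounds
  have b1 : L * (uY / s) + L * (ur / s) + n * l * (uX / s)
      ≤ L * (1 - g) + n * l * g - n * l * s := by
    have h1 : uY / s + ur / s ≤ 1 - s - uX / s := by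
      rw [← add_div, div_le_iff₀ hspos]
      have : (1 - s - uX / s) * s = s - s ^ 2 - uX := by field_simp
      rw [this]; exact q1
    have h2 : uX / s ≤ g - s := by
      rw [div_le_iff₀ hspos]; linarith [q2]
    have h3 : 0 ≤ n * l - L := by linarith
    have h4 := mul_le_mul_of_nonneg_left h1 hL.le
    have h5 := mul_le_mul_of_nonneg_left h2 h3
    linarith
  have b2 : n ^ 2 * vY / s' / L + vr / s' / L + n * (vX / s' / l)
      ≤ (1 - g' + (n ^ 2 - 1) * d') / L + n * g' / l - ((n ^ 2 - 1) / L + n / l) * s' := by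
    have h1 : vr / s' ≤ 1 - s' - vX / s' - vY / s' := by
      rw [div_le_iff₀ hs'pos]
      have : (1 - s' - vX / s' - vY / s') * s' = s' - s' ^ 2 - vX - vY := by field_simp
      rw [this]; exact q5
    have h2 : vX / s' ≤ g' - s' := by
      rw [div_le_iff₀ hs'pos]; linarith [q4]
    have h3 : vY / s' ≤ d' - s' := by
      rw [div_le_iff₀ hs'pos]; linarith [q3]
    have h4 : 0 ≤ n / l - 1 / L := by
      rw [div_sub_div _ _ hl.ne' hL.ne']
      exact div_nonneg (by linarith) (by positivity)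
    have e1 : n ^ 2 * vY / s' / L + vr / s' / L + n * (vX / s' / l)
        = (n ^ 2 * (vY / s') + vr / s' + vX / s') / L + (n / l - 1 / L) * (vX / s') := by
      field_simp
      ring
    have h5 : n ^ 2 * (vY / s') + vr / s' + vX / s' ≤ 1 - s' + (n ^ 2 - 1) * (d' - s') := by
      have := mul_le_mul_of_nonneg_left h3 hn2
      linarith
    have h6 := div_le_div_of_nonneg_right h5 hL.le
    have h7 := mul_le_mul_of_nonneg_left h2 h4
    rw [e1]
    have e2 : (1 - g' + (n ^ 2 - 1) * d') / L + n * g' / l - ((n ^ 2 - 1) / L + n / l) * s'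
        = (1 - s' + (n ^ 2 - 1) * (d' - s')) / L + (n / l - 1 / L) * (g' - s') := by
      field_simp
      ring
    rw [e2]
    linarith
  -- M (n^2) ≤ ...
  have c1 : n ^ 2 * M ≤ (L * (1 - g) + n * l * g - n * l * s
      + ((1 - g' + (n ^ 2 - 1) * d') / L + n * g' / l - ((n ^ 2 - 1) / L + n / l) * s')) / 2 := by
    have h1 : M * (n ^ 2 * M) ≤ M * ((L * (uY / s) + L * (ur / s) + n * l * (uX / s)
        + (n ^ 2 * vY / s' / L + vr / s' / L + n * (vX / s' / l))) / 2) := by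
      calc M * (n ^ 2 * M) = n ^ 2 * M ^ 2 := by ring
        _ ≤ _ := hsum
        _ = _ := by ring
    have h2 := le_of_mul_le_mul_left h1 hM0
    linarith
  have c2 : 2 * (τ * M) ≤ n * l * s + ((n ^ 2 - 1) / L + n / l) * s' := by
    have hp : 0 ≤ n * l * s := by positivity
    have hq : 0 ≤ ((n ^ 2 - 1) / L + n / l) * s' :=
      mul_nonneg (add_nonneg (div_nonneg hn2 hL.le) (by positivity)) hs'0
    have h1 : (τ * M) ^ 2 ≤ (n * l * s) * (((n ^ 2 - 1) / L + n / l) * s') := by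
      rw [mul_pow, hM2]
      calc τ ^ 2 * (s * s') ≤ (n * l * ((n ^ 2 - 1) / L + n / l)) * (s * s') :=
            mul_le_mul_of_nonneg_right hτ (by positivity)
        _ = _ := by ring
    have h2 : (2 * (τ * M)) ^ 2 ≤ (n * l * s + ((n ^ 2 - 1) / L + n / l) * s') ^ 2 := by
      generalize n * l * s = P at h1
      generalize ((n ^ 2 - 1) / L + n / l) * s' = Q at h1
      have e1 : (2 * (τ * M)) ^ 2 = 4 * (τ * M) ^ 2 := by ring
      have e2 : (P + Q) ^ 2 = 4 * (P * Q) + (P - Q) ^ 2 := by ring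
      rw [e1, e2]
      have := sq_nonneg (P - Q)
      linarith
    exact (pow_le_pow_iff_left₀ (by positivity) (by linarith) (by norm_num)).1 h2
  linarith

end Pool.Agent.Helper64.PX3
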