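import Mathlib
import Pool.Agent.Helper41.PX.PairM
import Pool.Agent.Helper64.PX3.Mixed

set_option autoImplicit false

/-! # The mixed pair bound for three colours -/

namespace Pool.Agent.Helper64.PX3

open Finset Pool.Agent.Helper41.PX
open scoped BigOperators

variable {V : Type*} [Fintype V] [DecidableEq V]

/-- the bound for the local product (square root), with weights -/
noncomputable def Mx (L l τ x y y' : ℝ) : ℝ :=
  (L * (1 - x) + 7 * l * x + (1 - y + 48 * y') / L + 7 * y / l) / 2 / (49 + τ)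

lemma U_gen (S : Finset V) {v w : V} (hvw : v ≠ w) (F H : Conf V → Prop)
    (hF : Down F) (h : PairOn 3 S F H) (hU1 : UB 2 ((S.erase v).erase w))
    (hU2 : UB 3 ((S.erase v).erase w)) (hK : KK 3 < mu F * mu H)
    (xv xw yv yw : ℝ) (hxv : 0 < xv) (hxv1 : xv < 1) (hyv : 0 < yv) (hyv1 : yv < 1)
    (hyw : 0 < yw)
    (eFv : 𝔼 z, max (fm v F z - xv) 0 ≤ yv * mu F)
    (eHv : 𝔼 z, max (fm v H z - yv) 0 ≤ xv * mu H) (eHw : 𝔼 z, max (fm w H z - yw) 0 ≤ xw * mu H)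
    (hx : xv + xw < 1) (L l τ : ℝ) (hL : 0 < L) (hl : 0 < l) (hLl : L ≤ 7 * l)
    (hlL : l ≤ 7 * L) (hτ0 : 0 ≤ τ) (hτ : τ ^ 2 ≤ 7 * l * (48 / L + 7 / l)) :
    mu (hat s(v, w) F) / mu F
      ≤ yv + (64 * Mx L l τ xv yv yw ^ 2 + xv * yv) / (1 - (xv + xw)) := by
  have hnum : 0 < L * (1 - xv) + 7 * l * xv + (1 - yv + 48 * yw) / L + 7 * yv / l := by
    have h1 : 0 < L * (1 - xv) := mul_pos hL (by linarith)
    have h2 : 0 < 7 * l * xv := by positivity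
    have h3 : 0 < (1 - yv + 48 * yw) / L := div_pos (by linarith) hL
    have h4 : 0 < 7 * yv / l := by positivity
    linarith
  have hM : 0 < Mx L l τ xv yv yw := by
    unfold Mx
    exact div_pos (by linarith) (by linarith)
  have hmain := pair_mixed 2 S hvw F H hF h hU1 hU2 hK xv xw yv yw hxv.le hyv.le hyw.le eFv eHv eHw
    hx (Mx L l τ xv yv yw ^ 2) (by positivity) ?_
  · refine hmain.trans (le_of_eq ?_)
    norm_num
    ring
  · intro D E X Y a b hD hE hX hY hXY ha hb hbl ha0 ha1 hb0 hb1 hax hbx hby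
    have hmix := local_mixed 3 D E hD hE X Y hX hY hXY a b ha hb hbl ha0 ha1 hb0 hb1 xv yv yw
      hxv1.le hxv.le hyv.le hyv1.le hyw.le hax hbx hby L l τ hL hl
      (by norm_num; exact hLl) (by norm_num; exact hlL) hτ0 (by norm_num; exact hτ)
    norm_num at hmix
    have h49 : 0 < 49 + τ := by linarith
    have h1 : √((𝔼 x, a x) * 𝔼 x, b x) ≤ Mx L l τ xv yv yw := by
      unfold Mx
      rw [le_div_iff₀ h49]
      exact hmix
    have h2 : 0 ≤ (𝔼 x, a x) * 𝔼 x, b x :=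
      mul_nonneg (Finset.expect_nonneg fun x _ => ha0 x) (Finset.expect_nonneg fun x _ => hb0 x)
    calc (𝔼 x, a x) * 𝔼 x, b x = √((𝔼 x, a x) * 𝔼 x, b x) ^ 2 := (Real.sq_sqrt h2).symm
      _ ≤ _ := pow_le_pow_left₀ (Real.sqrt_nonneg _) h1 2

/-- **The mixed pair bound, `F` side.** -/
theorem U_bound (S : Finset V) {v w : V} (hvw : v ≠ w) (F H : Conf V → Prop)
    (hF : Down F) (h : PairOn 3 S F H) (hU1 : UB 2 ((S.erase v).erase w))
    (hU2 : UB 3 ((S.erase v).erase w)) (hK : KK 3 < mu F * mu H) (cv cw : ℝ)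
    (hv : Prof 3 F H v cv) (hw : Prof 3 F H w cw) (hx : cv ^ 3 + cw ^ 3 < 1)
    (L l τ : ℝ) (hL : 0 < L) (hl : 0 < l) (hLl : L ≤ 7 * l) (hlL : l ≤ 7 * L)
    (hτ0 : 0 ≤ τ) (hτ : τ ^ 2 ≤ 7 * l * (48 / L + 7 / l)) :
    mu (hat s(v, w) F) / mu F
      ≤ (1 - cv) ^ 3 + (64 * Mx L l τ (cv ^ 3) ((1 - cv) ^ 3) ((1 - cw) ^ 3) ^ 2
          + cv ^ 3 * (1 - cv) ^ 3) / (1 - (cv ^ 3 + cw ^ 3)) := by
  have hv0 := hv.c0
  have hv1 : 0 < 1 - cv := by linarith [hv.c1]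
  have hw0 := hw.c0
  have hw1 : 0 < 1 - cw := by linarith [hw.c1]
  exact U_gen S hvw F H hF h hU1 hU2 hK (cv ^ 3) (cw ^ 3) ((1 - cv) ^ 3) ((1 - cw) ^ 3)
    (by positivity) (pow_lt_one₀ hv0.le hv.c1 (by norm_num)) (by positivity)
    (pow_lt_one₀ hv1.le (by linarith) (by norm_num)) (by positivity) hv.eF hv.eH hw.eH hx
    L l τ hL hl hLl hlL hτ0 hτ

/-- **The mixed pair bound, `H` side.** -/
theorem U_bound' (S : Finset V) {v w : V} (hvw : v ≠ w) (F H : Conf V → Prop)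
    (hH : Down H) (h : PairOn 3 S F H) (hU1 : UB 2 ((S.erase v).erase w))
    (hU2 : UB 3 ((S.erase v).erase w)) (hK : KK 3 < mu F * mu H) (cv cw : ℝ)
    (hv : Prof 3 F H v cv) (hw : Prof 3 F H w cw) (hx : (1 - cv) ^ 3 + (1 - cw) ^ 3 < 1)
    (L l τ : ℝ) (hL : 0 < L) (hl : 0 < l) (hLl : L ≤ 7 * l) (hlL : l ≤ 7 * L)
    (hτ0 : 0 ≤ τ) (hτ : τ ^ 2 ≤ 7 * l * (48 / L + 7 / l)) :
    mu (hat s(v, w) H) / mu H
      ≤ cv ^ 3 + (64 * Mx L l τ ((1 - cv) ^ 3) (cv ^ 3) (cw ^ 3) ^ 2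
          + cv ^ 3 * (1 - cv) ^ 3) / (1 - ((1 - cv) ^ 3 + (1 - cw) ^ 3)) := by
  have hv0 := hv.c0
  have hv1 : 0 < 1 - cv := by linarith [hv.c1]
  have hw0 := hw.c0
  have hw1 : 0 < 1 - cw := by linarith [hw.c1]
  have := U_gen S hvw H F hH h.symm hU1 hU2 (by rw [mul_comm]; exact hK)
    ((1 - cv) ^ 3) ((1 - cw) ^ 3) (cv ^ 3) (cw ^ 3)
    (by positivity) (pow_lt_one₀ hv1.le (by linarith) (by norm_num))
    (by positivity) (pow_lt_one₀ hv0.le hv.c1 (by norm_num)) (by positivity) hv.eH hv.eF hw.eF hx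
    L l τ hL hl hLl hlL hτ0 hτ
  rwa [mul_comm (cv ^ 3) ((1 - cv) ^ 3)]

end Pool.Agent.Helper64.PX3
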