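import Mathlib
import Pool.Agent.Helper41.PX.Asm

set_option autoImplicit false

/-! # From union pairs to difference pairs, by compression -/

namespace Pool.Agent.Helper64.PX3

open Finset Pool.Agent.Helper41.PX
open scoped BigOperators

section Cube

variable {ι : Type*} [Fintype ι] [DecidableEq ι]

/-- compression at a coordinate -/
def cmp (e : ι) (F : (ι → Bool) → Prop) (A : ι → Bool) : Prop :=
  if A e = true then F A ∧ F (Function.update A e false) else F A ∨ F (Function.update A e true)

omit [Fintype ι] in
lemma cmp_true {e : ι} {F : (ι → Bool) → Prop} {A : ι → Bool} (h : A e = true) :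
    cmp e F A ↔ F A ∧ F (Function.update A e false) := by
  unfold cmp; rw [if_pos h]

omit [Fintype ι] in
lemma cmp_false {e : ι} {F : (ι → Bool) → Prop} {A : ι → Bool} (h : A e = false) :
    cmp e F A ↔ F A ∨ F (Function.update A e true) := by
  unfold cmp; rw [if_neg (by rw [h]; decide)]

/-- toggling a coordinate -/
def tog (e : ι) (A : ι → Bool) : ι → Bool := Function.update A e (!(A e))

omit [Fintype ι] in
lemma tog_tog (e : ι) (A : ι → Bool) : tog e (tog e A) = A := by
  unfold tog
  simp

lemma exp_tog (e : ι) (g : (ι → Bool) → ℝ) : 𝔼 A, g (tog e A) = 𝔼 A, g A :=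
  Fintype.expect_equiv ⟨tog e, tog e, tog_tog e, tog_tog e⟩ _ _ fun _ => rfl

lemma mu_cmp (e : ι) (F : (ι → Bool) → Prop) : mu (cmp e F) = mu F := by
  classical
  have h1 : ∀ G : (ι → Bool) → Prop, 2 * mu G = 𝔼 A, (ind G A + ind G (tog e A)) := by
    intro G
    rw [Finset.expect_add_distrib, exp_tog, ← mu_ind]; ring
  have h2 : ∀ A, ind (cmp e F) A + ind (cmp e F) (tog e A) = ind F A + ind F (tog e A) := by
    have key : ∀ A : ι → Bool, A e = true → ind (cmp e F) A + ind (cmp e F) (tog e A)
        = ind F A + ind F (tog e A) := by
      intro A hA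
      have ht : tog e A = Function.update A e false := by unfold tog; rw [hA]; rfl
      have ht' : (tog e A) e = false := by rw [ht]; simp
      have hb : Function.update (tog e A) e true = A := by
        rw [ht, Function.update_idem, ← hA, Function.update_eq_self]
      have c1 : cmp e F A ↔ F A ∧ F (tog e A) := by rw [cmp_true hA, ht]
      have c2 : cmp e F (tog e A) ↔ F (tog e A) ∨ F A := by rw [cmp_false ht', hb]
      by_cases f1 : F A <;> by_cases f2 : F (tog e A)
      · rw [ind_of (c1.2 ⟨f1, f2⟩), ind_of (c2.2 (Or.inl f2)), ind_of f1, ind_of f2]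
      · rw [ind_of_not (fun h => f2 (c1.1 h).2), ind_of (c2.2 (Or.inr f1)), ind_of f1,
          ind_of_not f2]; ring
      · rw [ind_of_not (fun h => f1 (c1.1 h).1), ind_of (c2.2 (Or.inl f2)), ind_of_not f1,
          ind_of f2]
      · rw [ind_of_not (fun h => f1 (c1.1 h).1), ind_of_not (fun h => (c2.1 h).elim f2 f1),
          ind_of_not f1, ind_of_not f2]
    intro A
    by_cases hA : A e = true
    · exact key A hA
    · have hA' : (tog e A) e = true := by
        rw [Bool.not_eq_true] at hA
        unfold tog; rw [hA]; simp
      have := key (tog e A) hA'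
      rw [tog_tog] at this
      linarith
  have h3 := h1 (cmp e F)
  rw [Finset.expect_congr rfl fun A _ => h2 A, ← h1 F] at h3
  linarith

/-- monotone (downwards) at `e` -/
def MonoAt (e : ι) (F : (ι → Bool) → Prop) : Prop :=
  ∀ A, A e = true → F A → F (Function.update A e false)

omit [Fintype ι] in
lemma monoAt_cmp (e : ι) (F : (ι → Bool) → Prop) : MonoAt e (cmp e F) := by
  intro A hA h
  rw [cmp_true hA] at h
  rw [cmp_false (by simp)]
  exact Or.inl h.2

omit [Fintype ι] in
lemma MonoAt.cmp {e f : ι} (hef : e ≠ f) {F : (ι → Bool) → Prop} (h : MonoAt e F) :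
    MonoAt e (cmp f F) := by
  intro A hA hF
  have hc : ∀ b, Function.update (Function.update A f b) e false
      = Function.update (Function.update A e false) f b := fun b =>
    Function.update_comm hef.symm b false A
  by_cases hf : A f = true
  · have hf' : (Function.update A e false) f = true := by
      rw [Function.update_of_ne hef.symm]; exact hf
    rw [cmp_true hf] at hF
    rw [cmp_true hf']
    refine ⟨h A hA hF.1, ?_⟩
    rw [← hc]
    exact h _ (by rw [Function.update_of_ne hef]; exact hA) hF.2
  · rw [Bool.not_eq_true] at hf
    have hf' : (Function.update A e false) f = false := by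
      rw [Function.update_of_ne hef.symm]; exact hf
    rw [cmp_false hf] at hF
    rw [cmp_false hf']
    rcases hF with hF | hF
    · exact Or.inl (h A hA hF)
    · refine Or.inr ?_
      rw [← hc]
      exact h _ (by rw [Function.update_of_ne hef]; exact hA) hF

omit [Fintype ι] in
/-- simultaneous compression keeps difference pairs -/
lemma cmp_pair (e : ι) (Q : (ι → Bool) → Prop)
    (hQ : ∀ z z' : ι → Bool, Q z → (∀ i, z i = true → z' i = true) → Q z')
    (F H : (ι → Bool) → Prop) (h : ∀ A C, F A → H C → ¬ Q (fun i => xor (A i) (C i))) :
    ∀ A C, cmp e F A → cmp e H C → ¬ Q (fun i => xor (A i) (C i)) := by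
  intro A C hA hC hq
  -- replacing the coordinate `e`
  have key : ∀ b b', F (Function.update A e b) → H (Function.update C e b') →
      (xor (A e) (C e) = true → xor b b' = true) → False := by
    intro b b' h1 h2 h3
    refine h _ _ h1 h2 (hQ _ _ hq ?_)
    intro i hi
    by_cases hie : i = e
    · subst hie
      simp only [Function.update_self]
      exact h3 hi
    · simp only [Function.update_of_ne hie]
      exact hi
  have eA : Function.update A e (A e) = A := Function.update_eq_self _ _
  have eC : Function.update C e (C e) = C := Function.update_eq_self _ _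
  rcases hAe : A e with _ | _ <;> rcases hCe : C e with _ | _
  · rw [cmp_false hAe] at hA
    rw [cmp_false hCe] at hC
    rw [hAe] at eA
    rw [hCe] at eC
    rcases hA with hA | hA <;> rcases hC with hC | hC
    · exact key false false (by rw [eA]; exact hA) (by rw [eC]; exact hC) (by rw [hAe, hCe]; simp)
    · exact key false true (by rw [eA]; exact hA) hC (by rw [hAe, hCe]; simp)
    · exact key true false hA (by rw [eC]; exact hC) (by rw [hAe, hCe]; simp)
    · exact key true true hA hC (by rw [hAe, hCe]; simp)
  · rw [cmp_false hAe] at hA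
    rw [cmp_true hCe] at hC
    rw [hAe] at eA
    rw [hCe] at eC
    rcases hA with hA | hA
    · exact key false true (by rw [eA]; exact hA) (by rw [eC]; exact hC.1) (by simp)
    · exact key true false hA hC.2 (by simp)
  · rw [cmp_true hAe] at hA
    rw [cmp_false hCe] at hC
    rw [hAe] at eA
    rw [hCe] at eC
    rcases hC with hC | hC
    · exact key true false (by rw [eA]; exact hA.1) (by rw [eC]; exact hC) (by simp)
    · exact key false true hA.2 hC (by simp)
  · rw [cmp_true hAe] at hA
    rw [cmp_true hCe] at hC
    rw [hAe] at eA
    rw [hCe] at eC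
    exact key true true (by rw [eA]; exact hA.1) (by rw [eC]; exact hC.1) (by rw [hAe, hCe]; simp)

lemma exists_mono (Q : (ι → Bool) → Prop)
    (hQ : ∀ z z' : ι → Bool, Q z → (∀ i, z i = true → z' i = true) → Q z')
    (F H : (ι → Bool) → Prop) (h : ∀ A C, F A → H C → ¬ Q (fun i => xor (A i) (C i)))
    (S : Finset ι) : ∃ F' H' : (ι → Bool) → Prop, mu F' = mu F ∧ mu H' = mu H ∧
      (∀ A C, F' A → H' C → ¬ Q (fun i => xor (A i) (C i))) ∧
      ∀ e ∈ S, MonoAt e F' ∧ MonoAt e H' := by
  induction S using Finset.induction_on with
  | empty => exact ⟨F, H, rfl, rfl, h, by simp⟩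
  | insert f S hf ih =>
    obtain ⟨F', H', h1, h2, h3, h4⟩ := ih
    refine ⟨cmp f F', cmp f H', (mu_cmp f F').trans h1, (mu_cmp f H').trans h2,
      cmp_pair f Q hQ F' H' h3, ?_⟩
    intro e he
    rcases mem_insert.1 he with rfl | he'
    · exact ⟨monoAt_cmp e F', monoAt_cmp e H'⟩
    · have hef : e ≠ f := fun h => hf (h ▸ he')
      exact ⟨(h4 e he').1.cmp hef, (h4 e he').2.cmp hef⟩

lemma down_of_mono {F : (ι → Bool) → Prop} (h : ∀ e, MonoAt e F) :
    ∀ A A' : ι → Bool, F A → (∀ e, A' e = true → A e = true) → F A' := by
  classical
  have key : ∀ (S : Finset ι) (A : ι → Bool), F A → F (fun e => if e ∈ S then false else A e) := by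
    intro S
    induction S using Finset.induction_on with
    | empty => intro A hA; simpa using hA
    | insert f S hf ih =>
      intro A hA
      have h1 := ih A hA
      have e1 : (fun e => if e ∈ insert f S then false else A e)
          = Function.update (fun e => if e ∈ S then false else A e) f false := by
        funext e
        by_cases hef : e = f
        · subst hef; simp
        · rw [Function.update_of_ne hef]
          simp [mem_insert, hef]
      rw [e1]
      generalize (fun e => if e ∈ S then false else A e) = B at h1
      by_cases h2 : B f = true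
      · exact h f _ h2 h1
      · rw [Bool.not_eq_true] at h2
        have h3 : Function.update B f false = B := by
          funext e
          by_cases hef : e = f
          · subst hef; simp [h2]
          · rw [Function.update_of_ne hef]
        rw [h3]
        exact h1
  intro A A' hA hle
  have := key (univ.filter (fun e => A' e = false)) A hA
  have e1 : (fun e => if e ∈ univ.filter (fun e => A' e = false) then false else A e) = A' := by
    funext e
    rcases hA' : A' e with _ | _
    · simp [hA']
    · simp [hA', hle e hA']
  rwa [e1] at this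

end Cube

variable {V : Type*} [Fintype V] [DecidableEq V]

/-- **Difference pairs** satisfy the same bound as union pairs. -/
theorem xor_bound (k : ℕ) (S : Finset V) (hU : UB k S) (F H : Conf V → Prop)
    (h : ∀ A C, F A → H C → ¬ Cov k S (fun e => xor (A e) (C e))) :
    mu F * mu H ≤ KK k := by
  obtain ⟨F', H', h1, h2, h3, h4⟩ := exists_mono (Cov k S)
    (fun z z' hz hzz' => Cov.mono hz hzz') F H h univ
  rw [← h1, ← h2]
  refine hU F' H' ?_
  intro A C hA hC hcov
  have hF := down_of_mono (fun e => (h4 e (mem_univ e)).1)
  have hA' : F' (fun e => A e && !(C e)) := hF A _ hA (fun e he => by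
    simp only [Bool.and_eq_true] at he; exact he.1)
  refine h3 _ _ hA' hC (Cov.mono hcov ?_)
  intro e he
  unfold un at he
  rcases hAe : A e with _ | _ <;> rcases hCe : C e with _ | _ <;> simp_all

end Pool.Agent.Helper64.PX3
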