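import Mathlib
import Pool.Agent.Helper38.C3.Sm3
import Pool.Agent.Helper41.PX.Step3
import Pool.Agent.Helper64.PX3.Xor

set_option autoImplicit false

/-! # The exact bound for agreeing cross families of graphs -/

namespace Pool.Agent.Helper64.PX3

open Finset
open Pool.Agent.Helper41.PX (mu Conf Cov un PairOn UB KK)
open Pool.Agent.Helper38.C3 (fam mu_fam UB_two UB_small UB_three_small)
open scoped symmDiff

lemma UB_three {V : Type*} [Fintype V] [DecidableEq V] (S : Finset V) : UB 3 S := by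
  induction hm : S.card using Nat.strong_induction_on generalizing S with
  | _ m ih =>
    subst hm
    rcases Nat.lt_or_ge 6 S.card with h | h
    · exact Pool.Agent.Helper41.PX.step3 S h UB_two fun T hT => ih T.card hT T rfl
    · exact UB_three_small S h

/-- The union form for all numbers of colours at least two. -/
theorem UB_all {V : Type*} [Fintype V] [DecidableEq V] (k : ℕ) (hk : 2 ≤ k) (S : Finset V) :
    UB k S := by
  rcases eq_or_lt_of_le hk with h | h
  · rw [← h]; exact UB_two _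
  · exact Pool.Agent.Helper41.PX.all_of UB_three (fun k hk S hS => UB_small k (by omega) S hS) k h _

/-- adjacency function -/
noncomputable def adjc {n : ℕ} (F : Finset (SimpleGraph (Fin n))) : Conf (Fin n) → Prop := by
  classical exact fam (F.image (fun G => Gᶜ))

lemma adjc_iff {n : ℕ} (F : Finset (SimpleGraph (Fin n))) (z : Conf (Fin n)) :
    adjc F z ↔ ∃ G ∈ F, ∀ a b, a ≠ b → (z s(a, b) = true ↔ G.Adj a b) := by
  classical
  unfold adjc fam
  constructor
  · rintro ⟨G', hG', h⟩
    obtain ⟨G, hG, rfl⟩ := mem_image.1 hG'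
    refine ⟨G, hG, fun a b hab => (h a b hab).trans ?_⟩
    rw [SimpleGraph.compl_adj]
    have : a ≠ b := hab
    tauto
  · rintro ⟨G, hG, h⟩
    refine ⟨Gᶜ, mem_image.2 ⟨G, hG, rfl⟩, fun a b hab => (h a b hab).trans ?_⟩
    rw [SimpleGraph.compl_adj]
    have : a ≠ b := hab
    tauto

lemma mu_adjc {n : ℕ} (F : Finset (SimpleGraph (Fin n))) :
    (F.card : ℝ) / 2 ^ (n.choose 2) ≤ mu (adjc F) := by
  classical
  have h := mu_fam (F.image (fun G => Gᶜ))
  rw [card_image_of_injective _ compl_injective] at h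
  exact h

/-- **Exact bound, agreement form, at least three chromatic.** -/
theorem cross_exact (n k : ℕ) (hk : 2 ≤ k) (F₁ F₂ : Finset (SimpleGraph (Fin n)))
    (h : ∀ G ∈ F₁, ∀ H ∈ F₂, ((k + 1 : ℕ) : ℕ∞) ≤ ((G ∆ H)ᶜ).chromaticNumber) :
    F₁.card * F₂.card ≤ (2 ^ (n.choose 2 - (k + 1).choose 2)) ^ 2 := by
  classical
  rcases F₁.eq_empty_or_nonempty with he | ⟨G₀, hG₀⟩
  · rw [he, card_empty, zero_mul]; positivity
  rcases F₂.eq_empty_or_nonempty with he | ⟨H₀, hH₀⟩
  · rw [he, card_empty, mul_zero]; positivity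
  have htn : k + 1 ≤ n := by
    have h1 := (h G₀ hG₀ H₀ hH₀).trans
      ((G₀ ∆ H₀)ᶜ).colorable_of_fintype.chromaticNumber_le
    rw [Fintype.card_fin] at h1
    exact_mod_cast h1
  have hpair : ∀ A C, adjc F₁ A → adjc F₂ C →
      ¬ Cov k (univ : Finset (Fin n)) (fun e => xor (A e) (C e)) := by
    rintro A C hA hC ⟨r, hr⟩
    obtain ⟨G, hG, hGA⟩ := (adjc_iff F₁ A).1 hA
    obtain ⟨H, hH, hHC⟩ := (adjc_iff F₂ C).1 hC
    have hcol : ((G ∆ H)ᶜ).Colorable k := by
      refine ⟨SimpleGraph.Coloring.mk r ?_⟩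
      intro a b hab hrab
      have hne : a ≠ b := hab.ne
      have h1 := hr a (mem_univ _) b (mem_univ _) hne hrab
      have h2 := hGA a b hne
      have h3 := hHC a b hne
      rw [SimpleGraph.compl_adj] at hab
      simp only [symmDiff, SimpleGraph.sup_adj, SimpleGraph.sdiff_adj] at hab
      simp only at h1
      rcases hAe : A s(a, b) with _ | _ <;> rcases hCe : C s(a, b) with _ | _
      · rw [hAe, hCe] at h1; exact absurd h1 (by decide)
      · rw [hAe] at h2
        rw [hCe] at h3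
        have n1 : ¬ G.Adj a b := fun h => Bool.false_ne_true (h2.2 h)
        have n2 : H.Adj a b := h3.1 rfl
        exact hab.2 (Or.inr ⟨n2, n1⟩)
      · rw [hAe] at h2
        rw [hCe] at h3
        have n1 : G.Adj a b := h2.1 rfl
        have n2 : ¬ H.Adj a b := fun h => Bool.false_ne_true (h3.2 h)
        exact hab.2 (Or.inl ⟨n1, n2⟩)
      · rw [hAe, hCe] at h1; exact absurd h1 (by decide)
    have h4 := (h G hG H hH).trans hcol.chromaticNumber_le
    have h5 : k + 1 ≤ k := by exact_mod_cast h4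
    omega
  have h1 := xor_bound k (univ : Finset (Fin n)) (UB_all k hk _) (adjc F₁) (adjc F₂) hpair
  have h2 := mu_adjc F₁
  have h3 := mu_adjc F₂
  have hch : (k + 1).choose 2 ≤ n.choose 2 := Nat.choose_le_choose 2 htn
  have h4 : ((F₁.card : ℝ) / 2 ^ (n.choose 2)) * ((F₂.card : ℝ) / 2 ^ (n.choose 2)) ≤ KK k :=
    (mul_le_mul h2 h3 (by positivity) ((by positivity : (0 : ℝ) ≤ _).trans h2)).trans h1
  have hreal : (F₁.card : ℝ) * F₂.card ≤ (2 ^ (n.choose 2 - (k + 1).choose 2)) ^ 2 := by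
    have e : ((F₁.card : ℝ) / 2 ^ (n.choose 2)) * ((F₂.card : ℝ) / 2 ^ (n.choose 2))
        = ((F₁.card : ℝ) * F₂.card) / (2 ^ (n.choose 2)) ^ 2 := by
      field_simp
    rw [e, div_le_iff₀ (by positivity)] at h4
    refine h4.trans (le_of_eq ?_)
    unfold KK
    rw [← mul_pow]
    congr 1
    rw [pow_sub₀ _ (by norm_num) hch, one_div, inv_pow]
    ring
  exact_mod_cast hreal

end Pool.Agent.Helper64.PX3
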